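import Pool.Agent.SGP.Main

/-!
# MP_d4147e_nt: the inequality of Q1 holds for all but finitely many pairs

`π*(a, b) > a / (2 (a - 1)) · S / log S`, `S = a b - a - b`, for all coprime pairs `3 ≤ a < b`
with finitely many exceptions. Small `a` (at most a power of `log (a b)`): Siegel-Walfisz;
large `a`: Vinogradov's estimate for exponential sums over primes at fractions with
denominator `a`, Fourier expansion modulo `a`, dissection of `[1, a b]` into short intervals.
-/

set_option autoImplicit false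

namespace Pool.Agent.Results.MP_d4147e_nt.AllButFinitelyMany

open Pool.Agent.SGP

/-- The set of coprime pairs `3 ≤ a < b` for which the number of primes outside the semigroup
generated by `a` and `b` is at most `a / (2 (a - 1)) · S / log S`, `S = a b - a - b`, is finite. -/
theorem result : {q : ℕ × ℕ | 3 ≤ q.1 ∧ q.1 < q.2 ∧ q.1.Coprime q.2 ∧
    (({p : ℕ | p.Prime ∧ ¬ ∃ u v : ℕ, p = q.1 * u + q.2 * v}.ncard : ℕ) : ℝ) ≤
      (q.1 : ℝ) / (2 * ((q.1 : ℝ) - 1)) *
        (((q.1 : ℝ) * q.2 - q.1 - q.2) / Real.log ((q.1 : ℝ) * q.2 - q.1 - q.2))}.Finite := by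
  obtain ⟨X, hX⟩ := main
  refine Set.Finite.subset ((Set.finite_Iio X).prod (Set.finite_Iio X)) ?_
  rintro ⟨a, b⟩ ⟨h1, h2, h3, h4⟩
  simp only at h1 h2 h3 h4
  have hlt : a * b < X := by
    by_contra hcon
    have h5 := hX a b h1 h2 h3 (not_lt.1 hcon)
    unfold Ineq piStar Out at h5
    exact absurd h5 (not_lt.2 h4)
  have hb : b ≤ a * b := Nat.le_mul_of_pos_left b (by omega)
  have ha : a ≤ a * b := Nat.le_mul_of_pos_right a (by omega)
  exact ⟨lt_of_le_of_lt ha hlt, lt_of_le_of_lt hb hlt⟩

end Pool.Agent.Results.MP_d4147e_nt.AllButFinitelyMany
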